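import Pool.Agent.H96.PZ.Stmts
import Pool.Agent.H35.ZCL.Az

/-!
# The plank zoom: rows ZSP (transfer and algebra of the exclusions)
-/

set_option autoImplicit false

namespace Pool.PZ

open Finset Real
open Pool.Agent.H49.Ent Pool.Agent.H32.Dense Pool.STK Pool.KA Pool.KSAT Pool.K2S Pool.PB Pool.KS6
open Pool.ZCL

/-! ### The three coordinates -/

theorem cov_ne {i₀ iu iN : Fin 3} (h : ∀ j : Fin 3, j = i₀ ∨ j = iu ∨ j = iN) :
    iu ≠ i₀ ∧ iN ≠ i₀ ∧ iN ≠ iu := by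
  revert i₀ iu iN
  decide

theorem cov_sum {i₀ iu iN : Fin 3} (h : ∀ j : Fin 3, j = i₀ ∨ j = iu ∨ j = iN)
    (f : Fin 3 → ℝ) : ∑ j, f j = f i₀ + f iu + f iN := by
  obtain ⟨h1, h2, h3⟩ := cov_ne h
  have e : (Finset.univ : Finset (Fin 3)) = {i₀, iu, iN} := by
    ext j
    simp only [Finset.mem_univ, Finset.mem_insert, Finset.mem_singleton, true_iff]
    exact h j
  rw [e, Finset.sum_insert, Finset.sum_insert, Finset.sum_singleton]
  · ring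
  · simp only [Finset.mem_singleton]
    exact h3.symm
  · simp only [Finset.mem_insert, Finset.mem_singleton, not_or]
    exact ⟨h1.symm, h2.symm⟩

/-! ### Windows -/

theorem slam_coarse {m J : ℕ} (F : Fam m J) {w v : ℕ} (hwv : w ≤ v) (hv : v ≤ J) (ω : F.Ω) :
    slam F w ω = ((slam F v ω).1, (slam F v ω).2.1, (slam F v ω).2.2 / 2 ^ (v - w)) := by
  unfold slam Fam.T1
  refine Prod.ext rfl (Prod.ext rfl ?_)
  change F.T ω / 2 ^ (J - w) = F.T ω / 2 ^ (J - v) / 2 ^ (v - w)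
  rw [Nat.div_div_eq_div_mul, ← pow_add]
  congr 2
  omega

/-- Windows of the zoom inside a window. -/
theorem slam_zm {J : ℕ} {κ : Type} (F : Fam 3 J) {w J' x : ℕ} (h : w + J' ≤ J) (hx : x ≤ J')
    (C : Crd 3 κ) (g : F.Ω → κ) {ω ω' : F.Ω} (hg : g ω = g ω')
    (e : slam F (w + x) ω = slam F (w + x) ω') :
    slam (F.zm w J' h C g) x ω = slam (F.zm w J' h C g) x ω' := by
  have e1 : F.l ω = F.l ω' := (Prod.ext_iff.1 e).1
  have e2 : F.Z ω = F.Z ω' := (Prod.ext_iff.1 (Prod.ext_iff.1 e).2).1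
  have e3 : F.T1 (w + x) ω = F.T1 (w + x) ω' := (Prod.ext_iff.1 (Prod.ext_iff.1 e).2).2
  have hT : ∀ ω, F.T1 w ω = F.T1 (w + x) ω / 2 ^ x := by
    intro ω
    unfold Fam.T1
    rw [Nat.div_div_eq_div_mul, ← pow_add]
    congr 2
    omega
  have e4 : F.T1 w ω = F.T1 w ω' := by rw [hT, hT, e3]
  obtain ⟨b1, b2⟩ := Box.blab_det F (C := C) e1 e4 hg e2
  have hu : (F.box w C g).u ω = (F.box w C g).u ω' := (Prod.ext_iff.1 b2).1
  have hd : (F.box w C g).d ω = (F.box w C g).d ω' := (Prod.ext_iff.1 b2).2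
  unfold slam
  refine Prod.ext (Prod.ext ?_ ?_) (Prod.ext b1 ?_)
  · funext i
    change (⌊(2 : ℝ) ^ J' * (F.box w C g).u ω i⌋ : ℝ) / 2 ^ J' =
      (⌊(2 : ℝ) ^ J' * (F.box w C g).u ω' i⌋ : ℝ) / 2 ^ J'
    rw [hu]
  · funext i
    change (⌊(2 : ℝ) ^ J' * (F.box w C g).d ω i⌋ : ℝ) / 2 ^ J' =
      (⌊(2 : ℝ) ^ J' * (F.box w C g).d ω' i⌋ : ℝ) / 2 ^ J'
    rw [hd]
  · change F.T ω % 2 ^ (J - w) / 2 ^ (J - w - J') / 2 ^ (J' - x) =
      F.T ω' % 2 ^ (J - w) / 2 ^ (J - w - J') / 2 ^ (J' - x)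
    have k1 : ∀ ω, F.T ω % 2 ^ (J - w) / 2 ^ (J - w - J') / 2 ^ (J' - x) =
        F.T1 (w + x) ω % 2 ^ x := by
      intro ω
      unfold Fam.T1
      rw [Nat.div_div_eq_div_mul, ← pow_add]
      have k2 : J - w - J' + (J' - x) = J - (w + x) := by omega
      have k3 : J - w = J - (w + x) + x := by omega
      rw [k2, k3, pow_add, ← Nat.mod_mul_right_div_self]
    rw [k1, k1, e3]

/-! ### Transfer -/

theorem zst_thm : ZSTStmt := by
  intro J κ F w J' r h C g B hv hφ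
  obtain ⟨φ₁, hφ₁⟩ := hv
  obtain ⟨φ, hφ⟩ := hφ
  have p0 : (0 : ℝ) < 2 ^ J' := by positivity
  -- the error of one coordinate
  have hb : ∀ ω, B ω → ∀ i, |(F.zm w J' h C g).d ω i - (C.L (g ω) (F.d ω) i -
      φ₁ (ptr F r ω) i)| ≤ 1 / 2 ^ J' := by
    intro ω hω i
    have h2 := zm_d F h C g ω i
    have h3 : F.bvl C g ω i = φ₁ (ptr F r ω) i := congrFun (hφ₁ ω hω) i
    rw [h3] at h2
    exact h2
  refine ⟨?_, ?_, ?_⟩
  · rintro i K ρ hK ⟨n, s, hG⟩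
    refine ⟨fun y => n (φ y) + φ₁ y i - ∑ j, s (φ y) j * φ₁ y j, fun y => s (φ y),
      fun ω hω => ?_⟩
    obtain ⟨h1, h2, h3⟩ := hG ω hω
    rw [hφ ω hω] at h1 h2 h3
    refine ⟨h1, h2, ?_⟩
    simp only
    have e1 : C.L (g ω) (F.d ω) i - (n (φ (ptr F r ω)) + φ₁ (ptr F r ω) i -
        ∑ j, s (φ (ptr F r ω)) j * φ₁ (ptr F r ω) j) -
        ∑ j, s (φ (ptr F r ω)) j * C.L (g ω) (F.d ω) j =
        ((F.zm w J' h C g).d ω i - n (φ (ptr F r ω)) -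
          ∑ j, s (φ (ptr F r ω)) j * (F.zm w J' h C g).d ω j) -
        ((F.zm w J' h C g).d ω i - (C.L (g ω) (F.d ω) i - φ₁ (ptr F r ω) i)) +
        ∑ j, s (φ (ptr F r ω)) j * ((F.zm w J' h C g).d ω j - (C.L (g ω) (F.d ω) j -
          φ₁ (ptr F r ω) j)) := by
      simp only [Fin.sum_univ_three]
      ring
    rw [e1]
    have b1 := hb ω hω i
    have b2 : |∑ j, s (φ (ptr F r ω)) j * ((F.zm w J' h C g).d ω j - (C.L (g ω) (F.d ω) j -
          φ₁ (ptr F r ω) j))| ≤ 3 * (K * (1 / 2 ^ J')) := by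
      refine (Finset.abs_sum_le_sum_abs _ _).trans ?_
      calc ∑ j, |s (φ (ptr F r ω)) j * ((F.zm w J' h C g).d ω j - (C.L (g ω) (F.d ω) j -
          φ₁ (ptr F r ω) j))| ≤ ∑ _j : Fin 3, K * (1 / 2 ^ J') := by
            refine Finset.sum_le_sum fun j _ => ?_
            rw [abs_mul]
            exact mul_le_mul (h2 j) (hb ω hω j) (abs_nonneg _) hK
        _ = 3 * (K * (1 / 2 ^ J')) := by
            rw [Finset.sum_const, Finset.card_univ, Fintype.card_fin, nsmul_eq_mul]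
            push_cast
            ring
    have e2 : ρ + (3 * K + 1) / 2 ^ J' = ρ + 1 / 2 ^ J' + 3 * (K * (1 / 2 ^ J')) := by ring
    rw [e2]
    refine (abs_add_le _ _).trans (add_le_add ((abs_sub _ _).trans (add_le_add h3 b1)) b2)
  · rintro i₀ iu iN K γ ρ hK ⟨n, s, t, hG⟩
    refine ⟨fun y => n (φ y) + φ₁ y iu - s (φ y) * φ₁ y i₀ - t (φ y) * φ₁ y iN,
      fun y => s (φ y), fun y => t (φ y), fun ω hω => ?_⟩
    obtain ⟨h1, h2, h3, h4⟩ := hG ω hω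
    rw [hφ ω hω] at h1 h2 h3 h4
    refine ⟨h1, h2, h3, ?_⟩
    simp only
    have e1 : C.L (g ω) (F.d ω) iu - (n (φ (ptr F r ω)) + φ₁ (ptr F r ω) iu -
        s (φ (ptr F r ω)) * φ₁ (ptr F r ω) i₀ - t (φ (ptr F r ω)) * φ₁ (ptr F r ω) iN) -
        s (φ (ptr F r ω)) * C.L (g ω) (F.d ω) i₀ - t (φ (ptr F r ω)) * C.L (g ω) (F.d ω) iN =
        ((F.zm w J' h C g).d ω iu - n (φ (ptr F r ω)) -
          s (φ (ptr F r ω)) * (F.zm w J' h C g).d ω i₀ -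
          t (φ (ptr F r ω)) * (F.zm w J' h C g).d ω iN) -
        ((F.zm w J' h C g).d ω iu - (C.L (g ω) (F.d ω) iu - φ₁ (ptr F r ω) iu)) +
        (s (φ (ptr F r ω)) * ((F.zm w J' h C g).d ω i₀ - (C.L (g ω) (F.d ω) i₀ -
          φ₁ (ptr F r ω) i₀)) +
        t (φ (ptr F r ω)) * ((F.zm w J' h C g).d ω iN - (C.L (g ω) (F.d ω) iN -
          φ₁ (ptr F r ω) iN))) := by
      ring
    rw [e1]
    have b1 := hb ω hω iu
    have b2 : |s (φ (ptr F r ω)) * ((F.zm w J' h C g).d ω i₀ - (C.L (g ω) (F.d ω) i₀ -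
          φ₁ (ptr F r ω) i₀))| ≤ K * (1 / 2 ^ J') := by
      rw [abs_mul]
      exact mul_le_mul h1 (hb ω hω i₀) (abs_nonneg _) hK
    have b3 : |t (φ (ptr F r ω)) * ((F.zm w J' h C g).d ω iN - (C.L (g ω) (F.d ω) iN -
          φ₁ (ptr F r ω) iN))| ≤ K * (1 / 2 ^ J') := by
      rw [abs_mul]
      exact mul_le_mul h2 (hb ω hω iN) (abs_nonneg _) hK
    have e2 : ρ + (2 * K + 1) / 2 ^ J' = ρ + 1 / 2 ^ J' + (K * (1 / 2 ^ J') +
      K * (1 / 2 ^ J')) := by ring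
    rw [e2]
    exact (abs_add_le _ _).trans (add_le_add ((abs_sub _ _).trans (add_le_add h4 b1))
      ((abs_add_le _ _).trans (add_le_add b2 b3)))
  · rintro i₀ iu K μ x hK hx ⟨φg, hφg⟩ ⟨n, s, ζ, hG⟩
    classical
    -- the function of the window
    obtain ⟨ζ', hζ'⟩ : ∃ ζ' : ((Fin 3 → ℝ) × (Fin 3 → ℝ)) × F.ζ × ℕ → ℝ,
        ∀ ω, B ω → ζ (slam (F.zm w J' h C g) x ω) = ζ' (slam F (w + x) ω) := by
      refine ⟨fun z => if hz : ∃ ω, B ω ∧ slam F (w + x) ω = z then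
        ζ (slam (F.zm w J' h C g) x hz.choose) else 0, fun ω hω => ?_⟩
      have hz : ∃ ω', B ω' ∧ slam F (w + x) ω' = slam F (w + x) ω := ⟨ω, hω, rfl⟩
      simp only [dif_pos hz]
      obtain ⟨h1, h2⟩ := hz.choose_spec
      have hg : g hz.choose = g ω := by
        rw [hφg _ h1, hφg _ hω, slam_coarse F (Nat.le_add_right w x) (by omega) hz.choose,
          slam_coarse F (Nat.le_add_right w x) (by omega) ω, h2]
      rw [slam_zm F h hx C g hg h2]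
    refine ⟨fun y => n (φ y) + φ₁ y iu - s (φ y) * φ₁ y i₀, fun y => s (φ y), ζ',
      fun ω hω => ?_⟩
    obtain ⟨h1, h2, h3⟩ := hG ω hω
    rw [hφ ω hω] at h1 h2 h3
    rw [hζ' ω hω] at h3
    have q0 : 0 ≤ (K + 1) / 2 ^ J' := by positivity
    refine ⟨h1, ?_, by linarith only [h3, q0]⟩
    simp only
    have e1 : C.L (g ω) (F.d ω) iu - (n (φ (ptr F r ω)) + φ₁ (ptr F r ω) iu -
        s (φ (ptr F r ω)) * φ₁ (ptr F r ω) i₀) -
        s (φ (ptr F r ω)) * C.L (g ω) (F.d ω) i₀ =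
        ((F.zm w J' h C g).d ω iu - n (φ (ptr F r ω)) -
          s (φ (ptr F r ω)) * (F.zm w J' h C g).d ω i₀) -
        ((F.zm w J' h C g).d ω iu - (C.L (g ω) (F.d ω) iu - φ₁ (ptr F r ω) iu)) +
        s (φ (ptr F r ω)) * ((F.zm w J' h C g).d ω i₀ - (C.L (g ω) (F.d ω) i₀ -
          φ₁ (ptr F r ω) i₀)) := by
      ring
    rw [e1]
    have b1 := hb ω hω iu
    have b2 : |s (φ (ptr F r ω)) * ((F.zm w J' h C g).d ω i₀ - (C.L (g ω) (F.d ω) i₀ -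
          φ₁ (ptr F r ω) i₀))| ≤ K * (1 / 2 ^ J') := by
      rw [abs_mul]
      exact mul_le_mul h1 (hb ω hω i₀) (abs_nonneg _) hK
    have e2 : μ + (K + 1) / 2 ^ J' = μ + 1 / 2 ^ J' + K * (1 / 2 ^ J') := by ring
    rw [e2]
    exact (abs_add_le _ _).trans (add_le_add ((abs_sub _ _).trans (add_le_add h2 b1)) b2)

/-! ### Algebra -/

section alg

variable {Ω U : Type}

/-- A constant from the oscillation in the fans. -/
theorem cop_of_osc {i₀ : Fin 3} {pt : Ω → U} {V : Ω → Fin 3 → ℝ} {B : Ω → Prop} {δ : ℝ}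
    (h : ∀ ω ω', B ω → B ω' → pt ω = pt ω' → |V ω i₀ - V ω' i₀| ≤ δ) :
    CoP i₀ δ pt V B := by
  classical
  refine ⟨fun u => if hu : ∃ ω, B ω ∧ pt ω = u then V hu.choose i₀ else 0, fun ω hω => ?_⟩
  have hu : ∃ ω', B ω' ∧ pt ω' = pt ω := ⟨ω, hω, rfl⟩
  simp only [dif_pos hu]
  obtain ⟨h1, h2⟩ := hu.choose_spec
  exact h ω hu.choose hω h1 h2.symm

end alg

theorem zs1_thm : ZS1Stmt := by
  classical
  refine ⟨4, by norm_num, ?_⟩
  intro Ω U _ p hp i₀ iN pt V B ρ ρ' M hρ hρ' hρ1 hM hV hP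
  obtain ⟨ζ, hζ⟩ := hP
  obtain ⟨v, hv⟩ : ∃ v : U → Fin 3 → ℝ, v = fun u => (ζ u).2 0 := ⟨_, rfl⟩
  have hln : ∀ ω, B ω → ∃ c : ℝ, ∀ i, |V ω i - (ζ (pt ω)).1 i - c * v (pt ω) i| ≤ ρ := by
    intro ω hω
    obtain ⟨c, hc⟩ := hζ ω hω
    refine ⟨c 0, fun i => ?_⟩
    have := hc i
    rw [Fin.sum_univ_one] at this
    rw [hv]
    exact this
  obtain ⟨S, hS⟩ : ∃ S : Ω → Prop, S = fun ω => B ω ∧ v (pt ω) i₀ ≠ 0 ∧
    ρ' * |v (pt ω) iN| ≤ |v (pt ω) i₀| := ⟨_, rfl⟩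
  obtain ⟨S', hS'⟩ : ∃ S' : Ω → Prop, S' = fun ω => B ω ∧ (v (pt ω) i₀ = 0 ∨
    |v (pt ω) i₀| < ρ' * |v (pt ω) iN|) := ⟨_, rfl⟩
  rcases half_or hp (A := B) (S := S) (T := S') (by
    intro ω hω
    rw [hS, hS']
    by_cases h0 : v (pt ω) i₀ = 0
    · exact Or.inr ⟨hω, Or.inl h0⟩
    · rcases le_or_gt (ρ' * |v (pt ω) iN|) |v (pt ω) i₀| with h1 | h1
      · exact Or.inl ⟨hω, h0, h1⟩
      · exact Or.inr ⟨hω, Or.inr h1⟩) with hh | hh
  · refine ⟨S, fun ω hω => by rw [hS] at hω; exact hω.1, hh, Or.inl ?_⟩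
    refine ⟨fun u => (ζ u).1 iN - v u iN / v u i₀ * (ζ u).1 i₀, fun u => v u iN / v u i₀,
      fun ω hω => ?_⟩
    rw [hS] at hω
    obtain ⟨hB, h0, h1⟩ := hω
    obtain ⟨c, hc⟩ := hln ω hB
    have c1 := hc iN
    have c0 := hc i₀
    obtain ⟨q, hq⟩ : ∃ q : ℝ, q = v (pt ω) iN / v (pt ω) i₀ := ⟨_, rfl⟩
    have hqv : q * v (pt ω) i₀ = v (pt ω) iN := by
      rw [hq]
      field_simp
    have hq1 : |q| ≤ 1 / ρ' := by
      rw [hq, abs_div, div_le_div_iff₀ (abs_pos.2 h0) hρ']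
      linarith only [h1]
    simp only
    rw [← hq]
    have e1 : V ω iN - ((ζ (pt ω)).1 iN - q * (ζ (pt ω)).1 i₀) - q * V ω i₀ =
        (V ω iN - (ζ (pt ω)).1 iN - c * v (pt ω) iN) -
        q * (V ω i₀ - (ζ (pt ω)).1 i₀ - c * v (pt ω) i₀) := by
      linear_combination (-c) * hqv
    rw [e1]
    refine (abs_sub _ _).trans ?_
    rw [abs_mul]
    have h3 : |q| * |V ω i₀ - (ζ (pt ω)).1 i₀ - c * v (pt ω) i₀| ≤ 1 / ρ' * ρ :=
      mul_le_mul hq1 c0 (abs_nonneg _) (by positivity)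
    have h4 : ρ ≤ 1 / ρ' * ρ := by
      have : 1 ≤ 1 / ρ' := by
        rw [le_div_iff₀ hρ']
        linarith only [hρ1]
      nlinarith only [hρ, this]
    have h5 : 4 * ρ / ρ' = 4 * (1 / ρ' * ρ) := by ring
    rw [h5]
    have h6 : 0 ≤ 1 / ρ' * ρ := by positivity
    linarith only [hρ, c1, h3, h4]
  · refine ⟨S', fun ω hω => by rw [hS'] at hω; exact hω.1, hh, Or.inr ?_⟩
    refine cop_of_osc fun ω ω' hω hω' hpt => ?_
    rw [hS'] at hω hω'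
    obtain ⟨c, hc⟩ := hln ω hω.1
    obtain ⟨c', hc'⟩ := hln ω' hω'.1
    have k0 := hc i₀
    have k0' := hc' i₀
    have kN := hc iN
    have kN' := hc' iN
    rw [← hpt] at k0' kN'
    have e1 : V ω i₀ - V ω' i₀ = (V ω i₀ - (ζ (pt ω)).1 i₀ - c * v (pt ω) i₀) -
        (V ω' i₀ - (ζ (pt ω)).1 i₀ - c' * v (pt ω) i₀) + (c - c') * v (pt ω) i₀ := by ring
    have h2 : |(c - c') * v (pt ω) i₀| ≤ ρ' * (M + 2 * ρ) := by
      rcases hω.2 with h3 | h3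
      · rw [h3, mul_zero, abs_zero]
        positivity
      · have h4 : |(c - c') * v (pt ω) iN| ≤ M + 2 * ρ := by
          have e2 : (c - c') * v (pt ω) iN = (V ω iN - V ω' iN) -
            (V ω iN - (ζ (pt ω)).1 iN - c * v (pt ω) iN) +
            (V ω' iN - (ζ (pt ω)).1 iN - c' * v (pt ω) iN) := by ring
          rw [e2]
          have h5 := hV ω ω' hω.1 hω'.1 hpt iN
          refine (abs_add_le _ _).trans ?_
          have := abs_sub (V ω iN - V ω' iN) (V ω iN - (ζ (pt ω)).1 iN - c * v (pt ω) iN)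
          linarith only [kN, kN', h5, this]
        rw [abs_mul] at h4 ⊢
        calc |c - c'| * |v (pt ω) i₀| ≤ |c - c'| * (ρ' * |v (pt ω) iN|) :=
              mul_le_mul_of_nonneg_left h3.le (abs_nonneg _)
          _ = ρ' * (|c - c'| * |v (pt ω) iN|) := by ring
          _ ≤ ρ' * (M + 2 * ρ) := mul_le_mul_of_nonneg_left h4 hρ'.le
    rw [e1]
    refine (abs_add_le _ _).trans ?_
    have h3 := abs_sub (V ω i₀ - (ζ (pt ω)).1 i₀ - c * v (pt ω) i₀)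
      (V ω' i₀ - (ζ (pt ω)).1 i₀ - c' * v (pt ω) i₀)
    nlinarith only [k0, k0', h2, h3, hρ, hρ1, hM, hρ', mul_nonneg hρ hρ'.le, mul_nonneg hρ (sub_nonneg.2 hρ1),
      mul_nonneg (zero_le_one.trans hM) hρ'.le]

theorem zs2_thm : ZS2Stmt := by
  intro Ω U i₀ iu iN hcov pt V B K ρ θ r₁ hK hA hG
  obtain ⟨a, b, hab⟩ := hA
  obtain ⟨n, s, hns⟩ := hG
  refine ⟨fun u => n u + s u iu * a u, fun u => s u i₀ + s u iu * b u, fun ω hω => ?_⟩
  obtain ⟨h1, h2⟩ := hab ω hω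
  obtain ⟨h3, h4, h5⟩ := hns ω hω
  rw [cov_sum hcov, h3] at h5
  simp only
  have e1 : V ω iN - (n (pt ω) + s (pt ω) iu * a (pt ω)) -
      (s (pt ω) i₀ + s (pt ω) iu * b (pt ω)) * V ω i₀ =
      (V ω iN - n (pt ω) - (s (pt ω) i₀ * V ω i₀ + s (pt ω) iu * V ω iu + 0 * V ω iN)) +
      s (pt ω) iu * (V ω iu - a (pt ω) - b (pt ω) * V ω i₀) := by ring
  rw [e1]
  refine (abs_add_le _ _).trans (add_le_add h5 ?_)
  rw [abs_mul]
  exact mul_le_mul (h4 iu) h2 (abs_nonneg _) hK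

theorem zs3_thm : ZS3Stmt := by
  classical
  refine ⟨4, by norm_num, ?_⟩
  intro Ω U _ p hp i₀ iu iN hcov pt V B K ρ ρ' θ r₁ M hK hρ hr hρ' hρ1 hM hKθ hV hA hG
  obtain ⟨a, b, hab⟩ := hA
  obtain ⟨n, s, hns⟩ := hG
  obtain ⟨D, hD⟩ : ∃ D : U → ℝ, D = fun u => 1 - s u iu * b u := ⟨_, rfl⟩
  obtain ⟨σ, hσ⟩ : ∃ σ : U → ℝ, σ = fun u => s u iN / D u := ⟨_, rfl⟩
  obtain ⟨n', hn'⟩ : ∃ n' : U → ℝ, n' = fun u => (n u + s u iu * a u) / D u := ⟨_, rfl⟩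
  have hE0 : 0 ≤ ρ + K * r₁ := by positivity
  have key : ∀ ω, B ω → |V ω i₀ - n' (pt ω) - σ (pt ω) * V ω iN| ≤ 2 * (ρ + K * r₁) := by
    intro ω hω
    obtain ⟨h1, h2⟩ := hab ω hω
    obtain ⟨h3, h4, h5⟩ := hns ω hω
    rw [cov_sum hcov, h3] at h5
    have hsb : |s (pt ω) iu * b (pt ω)| ≤ 1 / 2 := by
      rw [abs_mul]
      have h0 : 0 ≤ θ := (abs_nonneg _).trans h1
      exact (mul_le_mul (h4 iu) h1 (abs_nonneg _) (by linarith only [hK])).trans hKθ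
    have hD1 : 1 / 2 ≤ D (pt ω) := by
      rw [hD]
      have := (abs_le.1 hsb).2
      simp only
      linarith only [this]
    have hD0 : 0 < D (pt ω) := by linarith only [hD1]
    have e1 : D (pt ω) * (V ω i₀ - n' (pt ω) - σ (pt ω) * V ω iN) =
        (V ω i₀ - n (pt ω) - (0 * V ω i₀ + s (pt ω) iu * V ω iu + s (pt ω) iN * V ω iN)) +
        s (pt ω) iu * (V ω iu - a (pt ω) - b (pt ω) * V ω i₀) := by
      have e2 : D (pt ω) * n' (pt ω) = n (pt ω) + s (pt ω) iu * a (pt ω) := by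
        rw [hn']
        field_simp
      have e3 : D (pt ω) * σ (pt ω) = s (pt ω) iN := by
        rw [hσ]
        field_simp
      have e4 : D (pt ω) = 1 - s (pt ω) iu * b (pt ω) := by rw [hD]
      linear_combination (-1 : ℝ) * e2 - V ω iN * e3 + V ω i₀ * e4
    have h6 : D (pt ω) * |V ω i₀ - n' (pt ω) - σ (pt ω) * V ω iN| ≤ ρ + K * r₁ := by
      have e5 : D (pt ω) * |V ω i₀ - n' (pt ω) - σ (pt ω) * V ω iN| =
          |D (pt ω) * (V ω i₀ - n' (pt ω) - σ (pt ω) * V ω iN)| := by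
        rw [abs_mul, abs_of_pos hD0]
      rw [e5, e1]
      refine (abs_add_le _ _).trans (add_le_add h5 ?_)
      rw [abs_mul]
      exact mul_le_mul (h4 iu) h2 (abs_nonneg _) (by linarith only [hK])
    have h7 := abs_nonneg (V ω i₀ - n' (pt ω) - σ (pt ω) * V ω iN)
    nlinarith only [h6, hD1, h7]
  obtain ⟨S, hS⟩ : ∃ S : Ω → Prop, S = fun ω => B ω ∧ ρ' ≤ |σ (pt ω)| := ⟨_, rfl⟩
  obtain ⟨S', hS'⟩ : ∃ S' : Ω → Prop, S' = fun ω => B ω ∧ |σ (pt ω)| < ρ' := ⟨_, rfl⟩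
  rcases half_or hp (A := B) (S := S) (T := S') (by
    intro ω hω
    rw [hS, hS']
    rcases le_or_gt ρ' |σ (pt ω)| with h1 | h1
    · exact Or.inl ⟨hω, h1⟩
    · exact Or.inr ⟨hω, h1⟩) with hh | hh
  · refine ⟨S, fun ω hω => by rw [hS] at hω; exact hω.1, hh, Or.inl ?_⟩
    refine ⟨fun u => -n' u / σ u, fun u => 1 / σ u, fun ω hω => ?_⟩
    rw [hS] at hω
    obtain ⟨hB, h1⟩ := hω
    have h2 := key ω hB
    have hσ0 : 0 < |σ (pt ω)| := hρ'.trans_le h1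
    have hσ1 : σ (pt ω) ≠ 0 := abs_pos.1 hσ0
    simp only
    have e1 : V ω iN - -n' (pt ω) / σ (pt ω) - 1 / σ (pt ω) * V ω i₀ =
        -(V ω i₀ - n' (pt ω) - σ (pt ω) * V ω iN) / σ (pt ω) := by
      field_simp
      ring
    rw [e1, abs_div, abs_neg, div_le_div_iff₀ hσ0 hρ']
    have h3 := abs_nonneg (V ω i₀ - n' (pt ω) - σ (pt ω) * V ω iN)
    calc |V ω i₀ - n' (pt ω) - σ (pt ω) * V ω iN| * ρ' ≤ 2 * (ρ + K * r₁) * |σ (pt ω)| :=
          mul_le_mul h2 h1 hρ'.le (by positivity)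
      _ ≤ 4 * (ρ + K * r₁) * |σ (pt ω)| := by nlinarith only [hρ', hE0, h1]
  · refine ⟨S', fun ω hω => by rw [hS'] at hω; exact hω.1, hh, Or.inr ?_⟩
    refine cop_of_osc fun ω ω' hω hω' hpt => ?_
    rw [hS'] at hω hω'
    have k1 := key ω hω.1
    have k2 := key ω' hω'.1
    rw [← hpt] at k2
    have e1 : V ω i₀ - V ω' i₀ = (V ω i₀ - n' (pt ω) - σ (pt ω) * V ω iN) -
        (V ω' i₀ - n' (pt ω) - σ (pt ω) * V ω' iN) + σ (pt ω) * (V ω iN - V ω' iN) := by ring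
    rw [e1]
    refine (abs_add_le _ _).trans ?_
    have h3 := abs_sub (V ω i₀ - n' (pt ω) - σ (pt ω) * V ω iN)
      (V ω' i₀ - n' (pt ω) - σ (pt ω) * V ω' iN)
    have h4 : |σ (pt ω) * (V ω iN - V ω' iN)| ≤ ρ' * M := by
      rw [abs_mul]
      exact mul_le_mul hω.2.le (hV ω ω' hω.1 hω'.1 hpt iN) (abs_nonneg _) hρ'.le
    nlinarith only [k1, k2, h3, h4, hM, hρ', mul_nonneg (zero_le_one.trans hM) hρ'.le]

theorem zs4_thm : ZS4Stmt := by
  intro Ω U i₀ iu iN pt V B K γ ρ θ r₁ hγ hA hG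
  obtain ⟨a, b, hab⟩ := hA
  obtain ⟨n, s, t, hns⟩ := hG
  refine ⟨fun u => (a u - n u) / t u, fun u => (b u - s u) / t u, fun ω hω => ?_⟩
  obtain ⟨h1, h2⟩ := hab ω hω
  obtain ⟨-, -, h5, h6⟩ := hns ω hω
  have ht0 : 0 < |t (pt ω)| := hγ.trans_le h5
  have ht1 : t (pt ω) ≠ 0 := abs_pos.1 ht0
  simp only
  have e1 : V ω iN - (a (pt ω) - n (pt ω)) / t (pt ω) -
      (b (pt ω) - s (pt ω)) / t (pt ω) * V ω i₀ =
      ((V ω iu - a (pt ω) - b (pt ω) * V ω i₀) -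
        (V ω iu - n (pt ω) - s (pt ω) * V ω i₀ - t (pt ω) * V ω iN)) / t (pt ω) := by
    field_simp
    ring
  rw [e1, abs_div, div_le_div_iff₀ ht0 hγ]
  have h7 : |(V ω iu - a (pt ω) - b (pt ω) * V ω i₀) -
        (V ω iu - n (pt ω) - s (pt ω) * V ω i₀ - t (pt ω) * V ω iN)| ≤ ρ + r₁ :=
    (abs_sub _ _).trans (by linarith only [h2, h6])
  have h8 : 0 ≤ ρ + r₁ := (abs_nonneg _).trans h7
  exact mul_le_mul h7 h5 hγ.le h8

theorem zs5_thm : ZS5Stmt := by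
  classical
  refine ⟨20, by norm_num, ?_⟩
  intro J F i₀ iu iN r w lam P v y B K μ hK hμ hμ1 hwv hvJ hz hR
  obtain ⟨hiu, hiN, hNu⟩ := cov_ne hz.cov
  obtain ⟨φ, hφ⟩ := hz.vis
  obtain ⟨ψ, hψ⟩ := hz.con
  obtain ⟨φ', hφ'⟩ := ptr_coarse F hz.rJ
  obtain ⟨n, s, ζ, hG⟩ := hR
  have pl : (0 : ℝ) < 2 ^ lam := by positivity
  have hP : w ≤ P := by have := hz.wP; omega
  -- the plank as a function of the point and of the window
  obtain ⟨Y, hY⟩ : ∃ Y : (Fin 3 → ℤ) × (ℕ × F.ζ) → Pln, Y = fun u => φ (φ' u) := ⟨_, rfl⟩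
  have hYω : ∀ ω, B ω → y ω = Y (Fam.pt F ω) := by
    intro ω hω
    rw [hφ ω hω, hY]
    change φ (ptr F r ω) = φ (φ' (ptr F J ω))
    rw [hφ' ω]
  obtain ⟨X, hX⟩ : ∃ X : ((Fin 3 → ℝ) × (Fin 3 → ℝ)) × F.ζ × ℕ → Pln,
    X = fun z => ψ (z.1, z.2.1, z.2.2 / 2 ^ (v - w)) := ⟨_, rfl⟩
  have hXω : ∀ ω, B ω → y ω = X (slam F v ω) := by
    intro ω hω
    rw [hψ ω hω, slam_coarse F hwv hvJ ω, hX]
  refine ⟨fun u j => if j = i₀ then 1 else if j = iu then (Y u).e + s u / 2 ^ lam else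
      -(Y u).c - (Y u).s * ((Y u).e + s u / 2 ^ lam),
    fun u j => if j = i₀ then 0 else if j = iu then n u / 2 ^ lam else
      fn i₀ iu iN (Y u).c (Y u).s (Y u).db - (Y u).s * (n u / 2 ^ lam),
    fun z j => if j = i₀ then 1 else if j = iu then (X z).e + ζ z / 2 ^ lam else
      -(X z).c - (X z).s * ((X z).e + ζ z / 2 ^ lam), ?_, ?_⟩
  · intro ω hω j
    obtain ⟨h1, h2, h3⟩ := hG ω hω
    have hi := hz.inc ω hω
    have hy := hYω ω hω
    simp only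
    rw [← hy]
    have q0 : 0 ≤ μ / 2 ^ lam := by positivity
    have q1 : (0 : ℝ) ≤ 2 ^ w / 2 ^ P := by positivity
    -- the coordinate iu
    have k1 : |F.d ω iu - ((y ω).e + s (Fam.pt F ω) / 2 ^ lam) * F.d ω i₀ -
        n (Fam.pt F ω) / 2 ^ lam| ≤ μ / 2 ^ lam := by
      have e1 : F.d ω iu - ((y ω).e + s (Fam.pt F ω) / 2 ^ lam) * F.d ω i₀ -
          n (Fam.pt F ω) / 2 ^ lam = (pv F i₀ iu lam (P - w) y ω iu - n (Fam.pt F ω) -
            s (Fam.pt F ω) * pv F i₀ iu lam (P - w) y ω i₀) / 2 ^ lam := by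
        have e2 : pv F i₀ iu lam (P - w) y ω iu = 2 ^ lam * (F.d ω iu - (y ω).e * F.d ω i₀) := by
          change (if iu = i₀ then F.d ω i₀ else if iu = iu then
            2 ^ lam * (F.d ω iu - (y ω).e * F.d ω i₀) else _) = _
          rw [if_neg hiu, if_pos rfl]
        have e3 : pv F i₀ iu lam (P - w) y ω i₀ = F.d ω i₀ := by
          change (if i₀ = i₀ then F.d ω i₀ else _) = _
          rw [if_pos rfl]
        rw [e2, e3]
        field_simp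
        ring
      rw [e1, abs_div, abs_of_pos pl]
      exact div_le_div_of_nonneg_right h2 pl.le
    rcases hz.cov j with hj | hj | hj
    · rw [hj]
      simp only [if_true]
      rw [one_mul, sub_self, sub_zero, abs_zero]
      positivity
    · rw [hj]
      simp only [if_neg hiu, if_true]
      refine k1.trans ?_
      nlinarith only [q0, q1, hK, mul_nonneg (sub_nonneg.2 hK) q0, mul_nonneg (sub_nonneg.2 hK) q1]
    · rw [hj]
      simp only [if_neg hiN, if_neg hNu]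
      have e1 : F.d ω iN - (-(y ω).c - (y ω).s * ((y ω).e + s (Fam.pt F ω) / 2 ^ lam)) *
          F.d ω i₀ - (fn i₀ iu iN (y ω).c (y ω).s (y ω).db -
            (y ω).s * (n (Fam.pt F ω) / 2 ^ lam)) =
          (fn i₀ iu iN (y ω).c (y ω).s (F.d ω) - fn i₀ iu iN (y ω).c (y ω).s (y ω).db) -
          (y ω).s * (F.d ω iu - ((y ω).e + s (Fam.pt F ω) / 2 ^ lam) * F.d ω i₀ -
            n (Fam.pt F ω) / 2 ^ lam) := by
        unfold fn
        ring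
      rw [e1]
      refine (abs_sub _ _).trans ?_
      rw [abs_mul (y ω).s]
      have k2 := hi.vn
      have k3 : |(y ω).s| * |F.d ω iu - ((y ω).e + s (Fam.pt F ω) / 2 ^ lam) * F.d ω i₀ -
            n (Fam.pt F ω) / 2 ^ lam| ≤ 4 * (μ / 2 ^ lam) :=
        mul_le_mul hi.s_le k1 (abs_nonneg _) (by norm_num)
      have k4 : 20 * (2 : ℝ) ^ w / 2 ^ P = 20 * (2 ^ w / 2 ^ P) := by ring
      rw [k4] at k2
      nlinarith only [q0, k2, k3, hK, q1, mul_nonneg (sub_nonneg.2 hK) q0, mul_nonneg (sub_nonneg.2 hK) q1]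
  · intro ω hω j
    obtain ⟨h1, h2, h3⟩ := hG ω hω
    have hi := hz.inc ω hω
    have hy := hYω ω hω
    have hx := hXω ω hω
    simp only
    rw [← hy, ← hx]
    have q0 : 0 ≤ μ / 2 ^ lam := by positivity
    have q1 : (0 : ℝ) ≤ 2 ^ w / 2 ^ P := by positivity
    have k1 : |(s (Fam.pt F ω) - ζ (slam F v ω)) / 2 ^ lam| ≤ μ / 2 ^ lam := by
      rw [abs_div, abs_of_pos pl]
      exact div_le_div_of_nonneg_right h3 pl.le
    rcases hz.cov j with hj | hj | hj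
    · rw [hj]
      simp only [if_true]
      rw [sub_self, abs_zero]
      positivity
    · rw [hj]
      simp only [if_neg hiu, if_true]
      have e1 : (y ω).e + s (Fam.pt F ω) / 2 ^ lam - ((y ω).e + ζ (slam F v ω) / 2 ^ lam) =
        (s (Fam.pt F ω) - ζ (slam F v ω)) / 2 ^ lam := by ring
      rw [e1]
      refine k1.trans ?_
      nlinarith only [q0, q1, hK, mul_nonneg (sub_nonneg.2 hK) q0, mul_nonneg (sub_nonneg.2 hK) q1]
    · rw [hj]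
      simp only [if_neg hiN, if_neg hNu]
      have e1 : -(y ω).c - (y ω).s * ((y ω).e + s (Fam.pt F ω) / 2 ^ lam) -
          (-(y ω).c - (y ω).s * ((y ω).e + ζ (slam F v ω) / 2 ^ lam)) =
          -((y ω).s * ((s (Fam.pt F ω) - ζ (slam F v ω)) / 2 ^ lam)) := by ring
      rw [e1, abs_neg, abs_mul]
      have k3 : |(y ω).s| * |(s (Fam.pt F ω) - ζ (slam F v ω)) / 2 ^ lam| ≤
          4 * (μ / 2 ^ lam) := mul_le_mul hi.s_le k1 (abs_nonneg _) (by norm_num)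
      nlinarith only [q0, q1, k3, hK, mul_nonneg (sub_nonneg.2 hK) q0, mul_nonneg (sub_nonneg.2 hK) q1]

theorem zs6_thm : ZS6Stmt := by
  intro J F i₀ iu iN hcov w lam P y B ρ hwP hS
  obtain ⟨hiu, hiN, hNu⟩ := cov_ne hcov
  obtain ⟨a, b, hab⟩ := hS
  have pn : (0 : ℝ) < 2 ^ (P - w) := by positivity
  have hPw : (2 : ℝ) ^ P = 2 ^ (P - w) * 2 ^ w := by rw [← pow_add, Nat.sub_add_cancel hwP]
  refine ⟨fun u => a u / 2 ^ (P - w), fun u => b u / 2 ^ (P - w), fun ω hω => ?_⟩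
  have h1 := hab ω hω
  have e2 : pv F i₀ iu lam (P - w) y ω iN =
      2 ^ (P - w) * ((y ω).c * F.d ω i₀ + (y ω).s * F.d ω iu + F.d ω iN) := by
    change (if iN = i₀ then F.d ω i₀ else if iN = iu then
      2 ^ lam * (F.d ω iu - (y ω).e * F.d ω i₀) else
      2 ^ (P - w) * ((y ω).c * F.d ω i₀ + (y ω).s * F.d ω iu + F.d ω iN)) = _
    rw [if_neg hiN, if_neg hNu]
  have e3 : pv F i₀ iu lam (P - w) y ω i₀ = F.d ω i₀ := by
    change (if i₀ = i₀ then F.d ω i₀ else _) = _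
    rw [if_pos rfl]
  rw [e2, e3] at h1
  have e4 : fn i₀ iu iN (y ω).c (y ω).s (F.d ω) - a (Fam.pt F ω) / 2 ^ (P - w) -
      b (Fam.pt F ω) / 2 ^ (P - w) * F.d ω i₀ =
      (2 ^ (P - w) * ((y ω).c * F.d ω i₀ + (y ω).s * F.d ω iu + F.d ω iN) -
        a (Fam.pt F ω) - b (Fam.pt F ω) * F.d ω i₀) / 2 ^ (P - w) := by
    unfold fn
    field_simp
  simp only
  rw [e4, abs_div, abs_of_pos pn]
  have e5 : ρ * 2 ^ w / 2 ^ P = ρ / 2 ^ (P - w) := by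
    rw [hPw]
    field_simp
  rw [e5]
  exact div_le_div_of_nonneg_right h1 pn.le

end Pool.PZ
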